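import Pool.Agent.Helper65.Delone.Goals

namespace Pool.Agent.Helper65.Delone

open Module
open scoped RealInnerProductSpace

variable {E : Type*} [NormedAddCommGroup E] [InnerProductSpace ℝ E]

theorem finiteNear [FiniteDimensional ℝ E] : FiniteNear E := by
  intro C D hD hsep q t
  have hcomp : IsCompact (Metric.closedBall q t) := isCompact_closedBall q t
  obtain ⟨s, hs, hs2⟩ := (Metric.totallyBounded_iff.1 hcomp.totallyBounded) (D / 2) (by linarith)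
  have hsub : {x | x ∈ C ∧ ‖q - x‖ ≤ t} ⊆ ⋃ y ∈ s, (C ∩ Metric.ball y (D / 2)) := by
    rintro x ⟨hxC, hxt⟩
    have h1 : x ∈ Metric.closedBall q t := by
      rw [Metric.mem_closedBall, dist_comm, dist_eq_norm]; exact hxt
    have h2 := hs2 h1
    simp only [Set.mem_iUnion] at h2 ⊢
    obtain ⟨y, hy, hy2⟩ := h2
    exact ⟨y, hy, hxC, hy2⟩
  apply Set.Finite.subset _ hsub
  apply hs.biUnion
  intro y _
  apply Set.Subsingleton.finite
  rintro a ⟨haC, ha⟩ b ⟨hbC, hb⟩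
  by_contra hne
  have h1 := hsep a haC b hbC hne
  have h2 : dist a b < D := by
    calc dist a b ≤ dist a y + dist y b := dist_triangle _ _ _
      _ < D / 2 + D / 2 := by
        rw [Metric.mem_ball] at ha hb
        rw [dist_comm y b]
        linarith
      _ = D := by ring
  rw [dist_eq_norm] at h2
  linarith

theorem sq_norm_move (q v z : E) (s : ℝ) :
    ‖q + s • v - z‖ ^ 2 = ‖q - z‖ ^ 2 + 2 * s * ⟪q - z, v⟫ + s ^ 2 * ‖v‖ ^ 2 := by
  have e : q + s • v - z = (q - z) + s • v := by abel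
  rw [e, norm_add_sq_real, inner_smul_right, norm_smul, mul_pow, Real.norm_eq_abs, sq_abs]
  ring

theorem sq_diff_move (q v z x : E) (s : ℝ) :
    ‖q + s • v - z‖ ^ 2 - ‖q + s • v - x‖ ^ 2 =
      ‖q - z‖ ^ 2 - ‖q - x‖ ^ 2 - 2 * s * ⟪z - x, v⟫ := by
  rw [sq_norm_move, sq_norm_move]
  have e : ⟪z - x, v⟫ = ⟪q - x, v⟫ - ⟪q - z, v⟫ := by
    rw [← inner_sub_left]
    congr 1
    abel
  rw [e]
  ring

theorem lemM [FiniteDimensional ℝ E] : LemM E := by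
  intro C D R hD h q x hx v hv
  have hv2 : 0 < ‖v‖ := norm_pos_iff.2 hv
  -- a point ahead
  have hz1 : ∃ z1 ∈ C, 0 < ⟪z1 - x, v⟫ := by
    set s : ℝ := (R * ‖v‖ + |⟪q - x, v⟫| + 1) / ‖v‖ ^ 2 with hs
    obtain ⟨z, hz, hzR⟩ := h.dens (q + s • v)
    refine ⟨z, hz, ?_⟩
    have e : z - x = (z - (q + s • v)) + ((q - x) + s • v) := by abel
    rw [e, inner_add_left, inner_add_left, inner_smul_left, real_inner_self_eq_norm_sq]
    have h1 : |⟪z - (q + s • v), v⟫| ≤ ‖z - (q + s • v)‖ * ‖v‖ := abs_real_inner_le_norm _ _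
    rw [norm_sub_rev] at h1
    have h2 : ‖q + s • v - z‖ * ‖v‖ ≤ R * ‖v‖ := mul_le_mul_of_nonneg_right hzR hv2.le
    have h3 : s * ‖v‖ ^ 2 = R * ‖v‖ + |⟪q - x, v⟫| + 1 := by
      rw [hs]; field_simp
    have h4 := neg_abs_le ⟪z - (q + s • v), v⟫
    have h5 := neg_abs_le ⟪q - x, v⟫
    simp only [conj_trivial]
    linarith
  obtain ⟨z1, hz1C, hz1⟩ := hz1
  set f : E → ℝ := fun z => (‖q - z‖ ^ 2 - ‖q - x‖ ^ 2) / (2 * ⟪z - x, v⟫) with hf
  have hN : ∀ z ∈ C, 0 ≤ ‖q - z‖ ^ 2 - ‖q - x‖ ^ 2 := by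
    intro z hz
    have h1 := hx.2 z hz
    have h2 := norm_nonneg (q - x)
    nlinarith
  have hf0 : ∀ z ∈ C, 0 < ⟪z - x, v⟫ → 0 ≤ f z := by
    intro z hz hpos
    exact div_nonneg (hN z hz) (by linarith)
  have hfle : ∀ z, 0 < ⟪z - x, v⟫ → ∀ s : ℝ, (s ≤ f z ↔
      0 ≤ ‖q + s • v - z‖ ^ 2 - ‖q + s • v - x‖ ^ 2) := by
    intro z hpos s
    rw [sq_diff_move]
    simp only [hf]
    rw [le_div_iff₀ (by linarith)]
    constructor <;> intro h' <;> nlinarith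
  have hfin : {z | z ∈ C ∧ 0 < ⟪z - x, v⟫ ∧ f z ≤ f z1}.Finite := by
    apply (finiteNear C D hD h.sep (q + f z1 • v) (‖q + f z1 • v - x‖)).subset
    rintro z ⟨hzC, hzpos, hzf⟩
    refine ⟨hzC, ?_⟩
    have h1 : ‖q + f z1 • v - z‖ ^ 2 - ‖q + f z1 • v - x‖ ^ 2 ≤ 0 := by
      rw [sq_diff_move]
      have h2 : f z * (2 * ⟪z - x, v⟫) = ‖q - z‖ ^ 2 - ‖q - x‖ ^ 2 := by
        simp only [hf]; field_simp
      have h3 : f z * (2 * ⟪z - x, v⟫) ≤ f z1 * (2 * ⟪z - x, v⟫) :=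
        mul_le_mul_of_nonneg_right hzf (by linarith)
      linarith
    have h4 := norm_nonneg (q + f z1 • v - x)
    have h5 := norm_nonneg (q + f z1 • v - z)
    nlinarith
  obtain ⟨z0, hz0, hmin⟩ := hfin.exists_minimalFor f _ ⟨z1, hz1C, hz1, le_refl _⟩
  obtain ⟨hz0C, hz0pos, hz0f⟩ := hz0
  have hmin' : ∀ z ∈ C, 0 < ⟪z - x, v⟫ → f z0 ≤ f z := by
    intro z hz hpos
    by_cases hc : f z ≤ f z1
    · rcases le_total (f z0) (f z) with h' | h'
      · exact h'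
      · exact hmin ⟨hz, hpos, hc⟩ h'
    · push Not at hc
      linarith
  have hxCon : x ∈ Con C (q + f z0 • v) := by
    refine ⟨hx.1, ?_⟩
    intro z hz
    have h4 := norm_nonneg (q + f z0 • v - x)
    have h5 := norm_nonneg (q + f z0 • v - z)
    have h6 : 0 ≤ ‖q + f z0 • v - z‖ ^ 2 - ‖q + f z0 • v - x‖ ^ 2 := by
      rcases lt_or_ge 0 ⟪z - x, v⟫ with hpos | hneg
      · exact (hfle z hpos _).1 (hmin' z hz hpos)
      · rw [sq_diff_move]
        have h7 := hN z hz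
        have h8 := hf0 z0 hz0C hz0pos
        nlinarith
    nlinarith
  have heq : ∀ z ∈ C, ‖q + f z0 • v - z‖ ^ 2 - ‖q + f z0 • v - x‖ ^ 2 = 0 →
      z ∈ Con C (q + f z0 • v) := by
    intro z hz h0
    refine ⟨hz, ?_⟩
    have h4 := norm_nonneg (q + f z0 • v - x)
    have h5 := norm_nonneg (q + f z0 • v - z)
    have h6 : ‖q + f z0 • v - z‖ = ‖q + f z0 • v - x‖ := by nlinarith
    rw [h6]
    exact hxCon.2
  refine ⟨f z0, hf0 z0 hz0C hz0pos, hxCon, ⟨z0, ?_, hz0pos⟩, ?_⟩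
  · apply heq z0 hz0C
    rw [sq_diff_move]
    have h2 : f z0 * (2 * ⟪z0 - x, v⟫) = ‖q - z0‖ ^ 2 - ‖q - x‖ ^ 2 := by
      simp only [hf]; field_simp
    linarith
  · intro y hy hyx
    apply heq y hy.1
    rw [sq_diff_move, hyx]
    have h1 := hx.2 y hy.1
    have h2 := hy.2 x hx.1
    have h3 : ‖q - x‖ = ‖q - y‖ := le_antisymm h1 h2
    rw [h3]
    ring

end Pool.Agent.Helper65.Delone
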