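import Pool.Agent.Helper65.Delone.Goals

namespace Pool.Agent.Helper65.Delone

open Module
open scoped RealInnerProductSpace

variable {E : Type*} [NormedAddCommGroup E] [InnerProductSpace ℝ E]

theorem con_self {C : Set E} {x : E} (hx : x ∈ C) : x ∈ Con C x := by
  refine ⟨hx, fun z _ => ?_⟩
  rw [sub_self, norm_zero]
  exact norm_nonneg _

theorem con_norm_le {C : Set E} {D R : ℝ} (h : SepDense C D R) {q x : E} (hx : x ∈ Con C q) :
    ‖q - x‖ ≤ R := by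
  obtain ⟨y, hy, hyR⟩ := h.dens q
  exact (hx.2 y hy).trans hyR

theorem con_norm_eq {C : Set E} {q x y : E} (hx : x ∈ Con C q) (hy : y ∈ Con C q) :
    ‖q - x‖ = ‖q - y‖ := le_antisymm (hx.2 y hy.1) (hy.2 x hx.1)

theorem con_dist_le {C : Set E} {D R : ℝ} (h : SepDense C D R) {q x y : E} (hx : x ∈ Con C q)
    (hy : y ∈ Con C q) : ‖x - y‖ ≤ 2 * R := by
  have e : x - y = (q - y) - (q - x) := by abel
  rw [e]
  have := norm_sub_le (q - y) (q - x)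
  have h1 := con_norm_le h hx
  have h2 := con_norm_le h hy
  linarith

theorem existsPos (hM : LemM E) : ExistsPos E := by
  intro C D R hD h x u hx hu
  obtain ⟨s, hs, hxc, ⟨z, hz, hzp⟩, -⟩ := hM C D R hD h x x (con_self hx) u hu
  exact ⟨z, hz.1, con_dist_le h hz hxc, hzp⟩

theorem lemN [FiniteDimensional ℝ E] (hM : LemM E) : LemN E := by
  intro C D R hD h hdim
  obtain ⟨x, hx, -⟩ := h.dens 0
  haveI : Nontrivial E := Module.nontrivial_of_finrank_pos (R := ℝ) (by omega)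
  obtain ⟨v, hv⟩ := exists_ne (0 : E)
  obtain ⟨s, hs, hxc, ⟨z, hz, hzp⟩, -⟩ := hM C D R hD h x x (con_self hx) v hv
  have hzx : z - x ≠ 0 := by
    intro h0
    rw [h0, inner_zero_left] at hzp
    exact lt_irrefl _ hzp
  -- orthogonal direction
  obtain ⟨v', hv', hv'z⟩ : ∃ v' : E, v' ≠ 0 ∧ ⟪z - x, v'⟫ = 0 := by
    have h1 := Submodule.finrank_add_finrank_orthogonal (ℝ ∙ (z - x))
    have h2 : finrank ℝ (ℝ ∙ (z - x)) = 1 := finrank_span_singleton hzx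
    have h3 : 0 < finrank ℝ ((ℝ ∙ (z - x))ᗮ) := by omega
    haveI : Nontrivial ((ℝ ∙ (z - x))ᗮ) := Module.nontrivial_of_finrank_pos (R := ℝ) h3
    obtain ⟨w, hw⟩ := exists_ne (0 : (ℝ ∙ (z - x))ᗮ)
    refine ⟨w, fun h0 => hw (Subtype.ext h0), ?_⟩
    exact Submodule.mem_orthogonal_singleton_iff_inner_right.1 w.2
  obtain ⟨s', hs', hxc', ⟨w, hw, hwp⟩, hy'⟩ := hM C D R hD h (x + s • v) x hxc v' hv'
  have hzc' := hy' z hz hv'z
  set q := x + s • v + s' • v' with hq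
  have n1 : ‖q - x‖ = ‖q - z‖ := con_norm_eq hxc' hzc'
  have n2 : ‖q - x‖ = ‖q - w‖ := con_norm_eq hxc' hw
  have n3 : ‖q - x‖ ≤ R := con_norm_le h hxc'
  have hxz : x ≠ z := by
    rintro rfl
    exact hzx (sub_self _)
  have hxw : x ≠ w := by
    rintro rfl
    rw [sub_self, inner_zero_left] at hwp
    exact lt_irrefl _ hwp
  have hzw : z ≠ w := by
    rintro rfl
    rw [hv'z] at hwp
    exact lt_irrefl _ hwp
  have d1 := h.sep x hxc'.1 z hzc'.1 hxz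
  have d2 := h.sep x hxc'.1 w hw.1 hxw
  have d3 := h.sep z hzc'.1 w hw.1 hzw
  have e1 : x - z = (q - z) - (q - x) := by abel
  have e2 : x - w = (q - w) - (q - x) := by abel
  have e3 : z - w = (q - w) - (q - z) := by abel
  have s1 : ‖x - z‖ ^ 2 = ‖q - z‖ ^ 2 - 2 * ⟪q - z, q - x⟫ + ‖q - x‖ ^ 2 := by
    rw [e1]; exact norm_sub_sq_real _ _
  have s2 : ‖x - w‖ ^ 2 = ‖q - w‖ ^ 2 - 2 * ⟪q - w, q - x⟫ + ‖q - x‖ ^ 2 := by
    rw [e2]; exact norm_sub_sq_real _ _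
  have s3 : ‖z - w‖ ^ 2 = ‖q - w‖ ^ 2 - 2 * ⟪q - w, q - z⟫ + ‖q - z‖ ^ 2 := by
    rw [e3]; exact norm_sub_sq_real _ _
  have s4 : 0 ≤ ‖(q - x) + (q - z) + (q - w)‖ ^ 2 := sq_nonneg _
  have s5 : ‖(q - x) + (q - z) + (q - w)‖ ^ 2 = ‖q - x‖ ^ 2 + ‖q - z‖ ^ 2 + ‖q - w‖ ^ 2 +
      2 * ⟪q - z, q - x⟫ + 2 * ⟪q - w, q - x⟫ + 2 * ⟪q - w, q - z⟫ := by
    rw [norm_add_sq_real, norm_add_sq_real, inner_add_left, real_inner_comm (q - z) (q - x),
      real_inner_comm (q - w) (q - x), real_inner_comm (q - w) (q - z)]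
    ring
  have s6 : ‖x - z‖ ^ 2 + ‖x - w‖ ^ 2 + ‖z - w‖ ^ 2 ≤ 9 * ‖q - x‖ ^ 2 := by
    rw [s1, s2, s3, ← n1, ← n2]
    rw [s5, ← n1, ← n2] at s4
    linarith
  have s7 : ‖q - x‖ ^ 2 ≤ R ^ 2 := by
    have := norm_nonneg (q - x)
    nlinarith
  have t1 : D ^ 2 ≤ ‖x - z‖ ^ 2 := by nlinarith
  have t2 : D ^ 2 ≤ ‖x - w‖ ^ 2 := by nlinarith
  have t3 : D ^ 2 ≤ ‖z - w‖ ^ 2 := by nlinarith
  linarith

end Pool.Agent.Helper65.Delone
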