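import Pool.Agent.Helper65.Delone.Goals

namespace Pool.Agent.Helper65.Delone

open Module
open scoped RealInnerProductSpace

variable {E : Type*} [NormedAddCommGroup E] [InnerProductSpace ℝ E]

theorem fixOrth : FixOrth E := by
  intro A v w hw
  rw [inner_sub_left, sub_eq_zero]
  conv_lhs => rw [← hw]
  exact A.inner_map_map v w

theorem symm_fix_iff (A : E ≃ₗᵢ[ℝ] E) (v : E) : A.symm v = v ↔ A v = v := by
  constructor
  · intro h
    rw [← h, LinearIsometryEquiv.apply_symm_apply, h]
  · intro h
    rw [LinearIsometryEquiv.symm_apply_eq, h]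

theorem indep : Indep E := by
  intro A hA v hv
  set w := A v - v with hw
  set w' := A.symm v - v with hw'
  have hAw' : A w' = -w := by
    rw [hw', map_sub, LinearIsometryEquiv.apply_symm_apply, hw]; abel
  have hnorm : ‖w'‖ = ‖w‖ := by
    rw [← A.norm_map w', hAw', norm_neg]
  have hw0 : w ≠ 0 := by
    rw [hw, sub_ne_zero]; exact hv
  have hwpos : 0 < ‖w‖ := norm_pos_iff.2 hw0
  rw [LinearIndependent.pair_iff]
  intro s t hst
  by_contra hcon
  have hst' : s • w = -(t • w') := eq_neg_of_add_eq_zero_left hst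
  have habs : |s| = |t| := by
    have h1 : ‖s • w‖ = ‖t • w'‖ := by rw [hst', norm_neg]
    rw [norm_smul, norm_smul, hnorm, Real.norm_eq_abs, Real.norm_eq_abs] at h1
    exact mul_right_cancel₀ hwpos.ne' h1
  have hs0 : s ≠ 0 := by
    intro h0
    apply hcon
    rw [h0, abs_zero] at habs
    exact ⟨h0, abs_eq_zero.1 habs.symm⟩
  rcases abs_eq_abs.1 habs with h1 | h1
  · -- s = t : w' = -w
    have h2 : w' = -w := by
      rw [← h1, ← smul_neg] at hst'
      have := smul_right_injective E hs0 hst'
      rw [this, neg_neg]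
    have h3 : A w = w := by
      rw [h2, map_neg, neg_inj] at hAw'
      exact hAw'
    have h4 := fixOrth A v w h3
    rw [← hw, real_inner_self_eq_norm_sq] at h4
    have : ‖w‖ = 0 := by simpa using h4
    exact hwpos.ne' this
  · -- s = -t : w' = w
    have h2 : w' = w := by
      have h3 : t • w' = t • w := by
        rw [h1, neg_smul] at hst'
        exact (neg_injective hst').symm
      have ht0 : t ≠ 0 := by
        rintro rfl
        rw [neg_zero] at h1
        exact hs0 h1
      exact smul_right_injective E ht0 h3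
    rw [h2] at hAw'
    have h4 := hA w
    rw [hAw'] at h4
    have h5 : -w - w = (-2 : ℝ) • w := by
      rw [neg_smul, two_smul]; abel
    rw [h5, norm_smul] at h4
    norm_num at h4
    linarith

theorem smallCodim [FiniteDimensional ℝ E] : SmallCodim E := by
  intro A hA h1
  have hne : fixSpace A ≠ ⊤ := by
    intro htop
    apply h1
    ext v
    have : v ∈ fixSpace A := by rw [htop]; exact Submodule.mem_top
    exact this
  have hperp : (fixSpace A)ᗮ ≠ ⊥ := by
    intro hbot
    exact hne ((Submodule.orthogonal_eq_bot_iff).1 hbot)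
  obtain ⟨u, hu, hu0⟩ := (Submodule.ne_bot_iff _).1 hperp
  have hAu : A u ≠ u := by
    intro h2
    have h3 : u ∈ fixSpace A := h2
    have h4 := hu u h3
    exact hu0 (inner_self_eq_zero.1 h4)
  have hli := indep A hA u hAu
  have hspan : Submodule.span ℝ (Set.range ![A u - u, A.symm u - u]) ≤ (fixSpace A)ᗮ := by
    rw [Submodule.span_le]
    rintro _ ⟨i, rfl⟩
    have key1 : A u - u ∈ (fixSpace A)ᗮ := by
      intro w hw
      rw [real_inner_comm]
      exact fixOrth A u w hw
    have key2 : A.symm u - u ∈ (fixSpace A)ᗮ := by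
      intro w hw
      rw [real_inner_comm]
      exact fixOrth A.symm u w ((symm_fix_iff A w).2 hw)
    fin_cases i
    · exact key1
    · exact key2
  have h2 := Submodule.finrank_mono hspan
  rw [finrank_span_eq_card hli, Fintype.card_fin] at h2
  have h3 := Submodule.finrank_add_finrank_orthogonal (fixSpace A)
  omega

theorem pow_fix {A : E ≃ₗᵢ[ℝ] E} {v : E} (h : A v = v) (k : ℕ) : (A ^ k) v = v := by
  induction k with
  | zero => rfl
  | succ n ih =>
    rw [pow_succ]
    change (A ^ n) (A v) = v
    rw [h, ih]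

theorem average : Average E := by
  intro A N P hN hAN hP a m ha hle
  set s := ∑ k ∈ Finset.range N, (A ^ k) a with hs
  have hAs : A s = s := by
    rw [hs, map_sum]
    have h1 : ∀ k, A ((A ^ k) a) = (A ^ (k + 1)) a := by
      intro k
      rw [pow_succ']; rfl
    simp only [h1]
    have h2 := Finset.sum_range_succ (fun k => (A ^ k) a) N
    have h3 := Finset.sum_range_succ' (fun k => (A ^ k) a) N
    rw [h2] at h3
    have h4 : (A ^ N) a = (A ^ 0) a := by rw [hAN, pow_zero]
    rw [h4] at h3
    exact (add_right_cancel h3).symm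
  have hsP : s ∈ P := (hP s).1 hAs
  have hperp : ∀ v ∈ P, ⟪v, s⟫ = 0 := by
    intro v hv
    rw [hs, inner_sum]
    apply Finset.sum_eq_zero
    intro k _
    have h1 : (A ^ k) v = v := pow_fix ((hP v).2 hv) k
    conv_lhs => rw [← h1]
    rw [(A ^ k).inner_map_map]
    exact ha v hv
  have hs0 : s = 0 := inner_self_eq_zero.1 (hperp s hsP)
  have h1 : ⟪m, s⟫ = ∑ k ∈ Finset.range N, ⟪m, (A ^ k) a⟫ := by rw [hs, inner_sum]
  rw [hs0, inner_zero_right] at h1
  have h2 : ∑ k ∈ Finset.range N, ⟪m, (A ^ k) a⟫ ≤ ∑ k ∈ Finset.range N, ⟪m, a⟫ :=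
    Finset.sum_le_sum fun k _ => hle k
  rw [← h1, Finset.sum_const, Finset.card_range, nsmul_eq_mul] at h2
  have h3 : (0 : ℝ) < N := Nat.cast_pos.2 hN
  exact (mul_nonneg_iff_of_pos_left h3).1 h2

end Pool.Agent.Helper65.Delone
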