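import Pool.Agent.Helper65.Delone.C

namespace Pool.Agent.Helper65.Delone

open Module
open scoped RealInnerProductSpace

variable {E : Type*} [NormedAddCommGroup E] [InnerProductSpace ℝ E]

theorem iso_pow {X : Set E} {L : ℝ} {x : E} {A : E ≃ₗᵢ[ℝ] E} (hA : Iso X L x x A) (k : ℕ) :
    Iso X L x x (A ^ k) := by
  induction k with
  | zero => intro v _; rfl
  | succ n ih =>
    intro v hv
    rw [ih v hv, hA ((A ^ n) v) (by rw [LinearIsometryEquiv.norm_map]; exact hv), pow_succ']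
    rfl

theorem finiteOrder [FiniteDimensional ℝ E] (hf : FiniteNear E) (hp : ExistsPos E) :
    FiniteOrder E := by
  intro X D R hD h x hx A hA
  have hK : {v : E | x + v ∈ X ∧ ‖v‖ ≤ 2 * R}.Finite := by
    have h1 := hf X D hD h.sep x (2 * R)
    apply (h1.image (fun z => z - x)).subset
    rintro v ⟨hv, hv2⟩
    refine ⟨x + v, ⟨hv, ?_⟩, by simp⟩
    simpa using hv2
  set K := {v : E | x + v ∈ X ∧ ‖v‖ ≤ 2 * R} with hKdef
  have : Finite K := hK
  have hmap : ∀ k : ℕ, ∀ v : K, (A ^ k) v.1 ∈ K := by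
    intro k v
    refine ⟨(iso_pow hA k v.1 v.2.2).1 v.2.1, ?_⟩
    rw [LinearIsometryEquiv.norm_map]
    exact v.2.2
  obtain ⟨m, n, hne, hmn⟩ := Finite.exists_ne_map_eq_of_infinite
    (fun k : ℕ => (fun v : K => (⟨(A ^ k) v.1, hmap k v⟩ : K)))
  wlog hlt : m < n generalizing m n
  · exact this n m hne.symm hmn.symm (by omega)
  refine ⟨n - m, by omega, ?_⟩
  have hfix : ∀ v ∈ K, (A ^ (n - m)) v = v := by
    intro v hv
    have h1 := congrFun hmn ⟨v, hv⟩
    have h2 : (A ^ m) v = (A ^ n) v := congrArg Subtype.val h1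
    have h3 : A ^ n = A ^ m * A ^ (n - m) := by rw [← pow_add]; congr 1; omega
    rw [h3] at h2
    have h4 : (A ^ m) v = (A ^ m) ((A ^ (n - m)) v) := h2
    exact ((A ^ m).injective h4).symm
  by_contra hB
  have hne : fixSpace (A ^ (n - m)) ≠ ⊤ := by
    intro htop
    apply hB
    ext v
    have : v ∈ fixSpace (A ^ (n - m)) := by rw [htop]; exact Submodule.mem_top
    exact this
  have hperp : (fixSpace (A ^ (n - m)))ᗮ ≠ ⊥ := by
    intro hbot
    exact hne ((Submodule.orthogonal_eq_bot_iff).1 hbot)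
  obtain ⟨u, hu, hu0⟩ := (Submodule.ne_bot_iff _).1 hperp
  obtain ⟨z, hz, hz2, hz3⟩ := hp X D R hD h x u hx hu0
  have hzK : z - x ∈ K := ⟨by simpa using hz, hz2⟩
  have h1 : z - x ∈ fixSpace (A ^ (n - m)) := hfix _ hzK
  have h2 := hu _ h1
  linarith

end Pool.Agent.Helper65.Delone
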