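import Pool.Agent.Helper65.Delone.Conv

/-! From isometries to vector form. -/

namespace Pool.Agent.Helper65.Delone

variable {d : ℕ} {X : Set (EuclideanSpace ℝ (Fin d))} {r R : ℝ}

theorem MutuallyCongruent.iso {ρ : ℝ} (hc : MutuallyCongruent X ρ) :
    ∀ x ∈ X, ∀ y ∈ X, ∃ B : EuclideanSpace ℝ (Fin d) ≃ₗᵢ[ℝ] EuclideanSpace ℝ (Fin d),
      Iso X ρ x y B := by
  intro x hx y hy
  obtain ⟨g, hg, hgc⟩ := hc x hx y hy
  exact ⟨_, lin_iso hg hgc⟩

theorem lin_injective {x : EuclideanSpace ℝ (Fin d)}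
    {a b : EuclideanSpace ℝ (Fin d) ≃ᵢ EuclideanSpace ℝ (Fin d)} (ha : a x = x) (hb : b x = x)
    (h : lin a x x ha = lin b x x hb) : a = b := by
  ext1 y
  have h1 := lin_apply a x x ha (y - x)
  have h2 := lin_apply b x x hb (y - x)
  rw [h, h2] at h1
  have h4 : b y = a y := by simpa using h1
  rw [h4]

theorem lin_one {x : EuclideanSpace ℝ (Fin d)}
    {a : EuclideanSpace ℝ (Fin d) ≃ᵢ EuclideanSpace ℝ (Fin d)} (ha : a x = x)
    (h : lin a x x ha = 1) : a = 1 := by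
  ext1 y
  have h1 := lin_apply a x x ha (y - x)
  rw [h] at h1
  have h2 : (1 : EuclideanSpace ℝ (Fin d) ≃ₗᵢ[ℝ] EuclideanSpace ℝ (Fin d)) (y - x) = y - x := rfl
  rw [h2, add_sub_cancel] at h1
  have h4 : y = a y := by simpa using h1
  exact h4.symm

theorem lin_small {x : EuclideanSpace ℝ (Fin d)}
    {g : EuclideanSpace ℝ (Fin d) ≃ᵢ EuclideanSpace ℝ (Fin d)} (hg : g x = x)
    (hs : ∀ y, dist (g y) y ≤ dist y x / 80) (v : EuclideanSpace ℝ (Fin d)) :
    ‖lin g x x hg v - v‖ ≤ ‖v‖ / 80 := by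
  rw [lin_apply]
  have h3 := hs (x + v)
  rw [dist_eq_norm, dist_eq_norm] at h3
  have e1 : g (x + v) - x - v = g (x + v) - (x + v) := by abel
  rw [e1]
  simpa using h3

/-- finiteness from a uniform bound for finite subsets -/
theorem finite_of_bound {α : Type*} {N : ℕ} (h : ∀ s : Finset α, s.card ≤ N) :
    Finite α ∧ Nat.card α ≤ N := by
  have hF : Finite α := by
    by_contra hcon
    rw [not_finite_iff_infinite] at hcon
    obtain ⟨s, hs⟩ := Infinite.exists_subset_card_eq α (N + 1)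
    have := h s
    omega
  refine ⟨hF, ?_⟩
  have := Fintype.ofFinite α
  rw [Nat.card_eq_fintype_card]
  exact h Finset.univ

theorem mem_fixSpace_lin {x : EuclideanSpace ℝ (Fin d)}
    {g : EuclideanSpace ℝ (Fin d) ≃ᵢ EuclideanSpace ℝ (Fin d)} (hg : g x = x)
    {v : EuclideanSpace ℝ (Fin d)} (hv : v ∈ fixSpace (lin g x x hg)) : g (x + v) = x + v := by
  have h1 : lin g x x hg v = v := hv
  rw [lin_apply, sub_eq_iff_eq_add] at h1
  rw [h1, add_comm]

end Pool.Agent.Helper65.Delone
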