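import Pool.Agent.Helper65.Delone.Goals

/-! Assembly: from the steps to statements on cluster symmetries (vector form). -/

namespace Pool.Agent.Helper65.Delone

open Module

variable {E : Type*} [NormedAddCommGroup E] [InnerProductSpace ℝ E]

theorem Iso.symm {X : Set E} {L : ℝ} {x y : E} {A : E ≃ₗᵢ[ℝ] E} (h : Iso X L x y A) :
    Iso X L y x A.symm := by
  intro v hv
  have h1 := h (A.symm v) (by rw [LinearIsometryEquiv.norm_map]; exact hv)
  rw [LinearIsometryEquiv.apply_symm_apply] at h1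
  exact h1.symm

theorem Iso.trans {X : Set E} {L : ℝ} {x y z : E} {A B : E ≃ₗᵢ[ℝ] E} (h : Iso X L x y A)
    (h' : Iso X L y z B) : Iso X L x z (B * A) := by
  intro v hv
  rw [h v hv, h' (A v) (by rw [LinearIsometryEquiv.norm_map]; exact hv)]
  rfl

section

variable [FiniteDimensional ℝ E]

/-- Small cluster symmetries fix a subspace of dimension at least three. -/
theorem three_le_of_small (hF : ExistsFrame E) (hI : CaseI E) (hII : CaseII E)
    {X : Set E} {D R : ℝ} (hD : 0 < D) (h : SepDense X D R)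
    (hcong : ∀ x ∈ X, ∀ y ∈ X, ∃ B : E ≃ₗᵢ[ℝ] E, Iso X (2 * R) x y B)
    {x : E} (hx : x ∈ X) {A : E ≃ₗᵢ[ℝ] E} (hA : Iso X (2 * R) x x A) (h1 : A ≠ 1)
    (hs : ∀ v : E, ‖A v - v‖ ≤ ‖v‖ / 80) : 3 ≤ finrank ℝ (fixSpace A) := by
  by_contra hcon
  have hA2 : A ∈ Small X (2 * R) x := ⟨hA, h1, hs, by omega⟩
  obtain ⟨W, Q, F⟩ := hF X D R hD h hcong x hx ⟨A, hA2⟩
  rcases lt_or_ge (2 * R) (40 * W) with hlt | hge
  · exact hI X D R W _ Q hD h F hlt ⟨x, hx⟩
  · exact hII X D R W _ Q hD h F hge ⟨x, hx⟩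

/-- Counting. -/
theorem card_le (hF : ExistsFrame E) (hI : CaseI E) (hII : CaseII E) (hS : SmallCodim E)
    (hP : Packing (E →L[ℝ] E)) (hdim : finrank ℝ E = 4)
    {X : Set E} {D R : ℝ} (hD : 0 < D) (h : SepDense X D R)
    (hcong : ∀ x ∈ X, ∀ y ∈ X, ∃ B : E ≃ₗᵢ[ℝ] E, Iso X (2 * R) x y B)
    {x : E} (hx : x ∈ X) (s : Finset (E ≃ₗᵢ[ℝ] E)) (hs : ∀ A ∈ s, Iso X (2 * R) x x A) :
    s.card ≤ 161 ^ 16 := by
  classical
  have key : ∀ A ∈ s, ∀ B ∈ s, A ≠ B →
      1 / 80 ≤ ‖(A.toContinuousLinearEquiv : E →L[ℝ] E) - (B.toContinuousLinearEquiv : E →L[ℝ] E)‖ := by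
    intro A hA B hB hne
    by_contra hcon
    push Not at hcon
    have hk : ∀ v : E, ‖A v - B v‖ ≤ ‖v‖ / 80 := by
      intro v
      have h2 := ((A.toContinuousLinearEquiv : E →L[ℝ] E) -
        (B.toContinuousLinearEquiv : E →L[ℝ] E)).le_opNorm v
      have h3 : ((A.toContinuousLinearEquiv : E →L[ℝ] E) -
        (B.toContinuousLinearEquiv : E →L[ℝ] E)) v = A v - B v := rfl
      rw [h3] at h2
      have h4 : 0 ≤ ‖v‖ := norm_nonneg v
      nlinarith
    have hK : Iso X (2 * R) x x (B.symm * A) := (hs A hA).trans (hs B hB).symm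
    have hK1 : B.symm * A ≠ 1 := by
      intro h5
      apply hne
      ext v
      have h6 : (B.symm * A) v = v := by rw [h5]; rfl
      have h7 : B.symm (A v) = v := h6
      rw [← h7, LinearIsometryEquiv.apply_symm_apply, h7]
    have hKs : ∀ v : E, ‖(B.symm * A) v - v‖ ≤ ‖v‖ / 80 := by
      intro v
      have h8 : (B.symm * A) v - v = B.symm (A v - B v) := by
        rw [map_sub, LinearIsometryEquiv.symm_apply_apply]; rfl
      rw [h8, LinearIsometryEquiv.norm_map]
      exact hk v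
    have h9 := three_le_of_small hF hI hII hD h hcong hx hK hK1 hKs
    have h10 := hS _ hKs hK1
    omega
  have hinj : ∀ A ∈ s, ∀ B ∈ s, (A.toContinuousLinearEquiv : E →L[ℝ] E) =
      (B.toContinuousLinearEquiv : E →L[ℝ] E) → A = B := by
    intro A hA B hB heq
    by_contra hne
    have h1 := key A hA B hB hne
    rw [heq, sub_self, norm_zero] at h1
    norm_num at h1
  have hcard : (s.image (fun A => (A.toContinuousLinearEquiv : E →L[ℝ] E))).card = s.card := by
    apply Finset.card_image_of_injOn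
    intro A hA B hB heq
    exact hinj A hA B hB heq
  rw [← hcard]
  have hdim2 : finrank ℝ (E →L[ℝ] E) = 16 := by
    have e := (LinearMap.toContinuousLinearMap : (E →ₗ[ℝ] E) ≃ₗ[ℝ] (E →L[ℝ] E))
    rw [← e.finrank_eq, finrank_linearMap, hdim]
  have := hP (s.image (fun A => (A.toContinuousLinearEquiv : E →L[ℝ] E))) ?_ ?_
  · rw [hdim2] at this
    exact this
  · intro c hc
    rw [Finset.mem_image] at hc
    obtain ⟨A, hA, rfl⟩ := hc
    apply ContinuousLinearMap.opNorm_le_bound _ zero_le_one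
    intro v
    have : ((A.toContinuousLinearEquiv : E →L[ℝ] E)) v = A v := rfl
    rw [this, LinearIsometryEquiv.norm_map, one_mul]
  · intro c hc d hd hne
    rw [Finset.mem_image] at hc hd
    obtain ⟨A, hA, rfl⟩ := hc
    obtain ⟨B, hB, rfl⟩ := hd
    apply key A hA B hB
    rintro rfl
    exact hne rfl

end

end Pool.Agent.Helper65.Delone
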