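import Pool.Agent.Helper65.Delone.Final

/-! Delaunay sets, clusters and their symmetry groups; conversion to vector form. -/

namespace Pool.Agent.Helper65.Delone

open Module

/-- `X` is a Delaunay set of type `(r, R)`: every open ball of radius `r` contains at most one
point of `X` and every closed ball of radius `R` contains at least one. -/
structure IsDelaunay {d : ℕ} (X : Set (EuclideanSpace ℝ (Fin d))) (r R : ℝ) : Prop where
  r_pos : 0 < r
  r_le : r ≤ R
  atMost : ∀ c : EuclideanSpace ℝ (Fin d), (X ∩ Metric.ball c r).Subsingleton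
  atLeast : ∀ c : EuclideanSpace ℝ (Fin d), (X ∩ Metric.closedBall c R).Nonempty

/-- The `ρ`-cluster of `X` at `x`. -/
def cluster {d : ℕ} (X : Set (EuclideanSpace ℝ (Fin d))) (x : EuclideanSpace ℝ (Fin d)) (ρ : ℝ) :
    Set (EuclideanSpace ℝ (Fin d)) := {y | y ∈ X ∧ dist y x ≤ ρ}

/-- The group of the isometries of Euclidean space that fix `x` and map the `ρ`-cluster at `x`
onto itself. -/
def clusterGroup {d : ℕ} (X : Set (EuclideanSpace ℝ (Fin d))) (x : EuclideanSpace ℝ (Fin d))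
    (ρ : ℝ) : Subgroup (EuclideanSpace ℝ (Fin d) ≃ᵢ EuclideanSpace ℝ (Fin d)) where
  carrier := {g | g x = x ∧ g '' cluster X x ρ = cluster X x ρ}
  mul_mem' := by
    rintro a b ⟨ha, ha'⟩ ⟨hb, hb'⟩
    refine ⟨?_, ?_⟩
    · change a (b x) = x
      rw [hb, ha]
    · have : (a * b : EuclideanSpace ℝ (Fin d) ≃ᵢ EuclideanSpace ℝ (Fin d)) '' cluster X x ρ =
          a '' (b '' cluster X x ρ) := by
        rw [Set.image_image]; rfl
      rw [this, hb', ha']
  one_mem' := by
    refine ⟨rfl, ?_⟩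
    have : ((1 : EuclideanSpace ℝ (Fin d) ≃ᵢ EuclideanSpace ℝ (Fin d)) :
        EuclideanSpace ℝ (Fin d) → EuclideanSpace ℝ (Fin d)) = id := rfl
    rw [this, Set.image_id]
  inv_mem' := by
    rintro a ⟨ha, ha'⟩
    refine ⟨?_, ?_⟩
    · change a.symm x = x
      rw [IsometryEquiv.symm_apply_eq, ha]
    · change a.symm '' cluster X x ρ = cluster X x ρ
      conv_lhs => rw [← ha']
      rw [Set.image_image]
      simp

/-- `X` has mutually congruent `ρ`-clusters. -/
def MutuallyCongruent {d : ℕ} (X : Set (EuclideanSpace ℝ (Fin d))) (ρ : ℝ) : Prop :=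
  ∀ x ∈ X, ∀ y ∈ X, ∃ g : EuclideanSpace ℝ (Fin d) ≃ᵢ EuclideanSpace ℝ (Fin d),
    g x = y ∧ g '' cluster X x ρ = cluster X y ρ

variable {d : ℕ} {X : Set (EuclideanSpace ℝ (Fin d))} {r R : ℝ}

theorem IsDelaunay.sepDense (h : IsDelaunay X r R) : SepDense X (2 * r) R := by
  constructor
  · intro x hx y hy hne
    by_contra hlt
    push Not at hlt
    apply hne
    have hxm : dist x (midpoint ℝ x y) = ‖x - y‖ / 2 := by
      rw [dist_left_midpoint, dist_eq_norm, Real.norm_ofNat]; ring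
    have hym : dist y (midpoint ℝ x y) = ‖x - y‖ / 2 := by
      rw [dist_right_midpoint, dist_eq_norm, Real.norm_ofNat]; ring
    apply h.atMost (midpoint ℝ x y)
    · refine ⟨hx, ?_⟩
      rw [Metric.mem_ball, hxm]; linarith
    · refine ⟨hy, ?_⟩
      rw [Metric.mem_ball, hym]; linarith
  · intro q
    obtain ⟨x, hx, hxq⟩ := h.atLeast q
    refine ⟨x, hx, ?_⟩
    rw [Metric.mem_closedBall, dist_comm, dist_eq_norm] at hxq
    exact hxq

/-- The linear part at `x` of an isometry `g`. -/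
noncomputable def lin (g : EuclideanSpace ℝ (Fin d) ≃ᵢ EuclideanSpace ℝ (Fin d))
    (x y : EuclideanSpace ℝ (Fin d)) (hg : g x = y) :
    EuclideanSpace ℝ (Fin d) ≃ₗᵢ[ℝ] EuclideanSpace ℝ (Fin d) :=
  IsometryEquiv.toRealLinearIsometryEquivOfMapZero
    (((IsometryEquiv.addLeft x).trans g).trans (IsometryEquiv.addLeft (-y)))
    (by simp [hg])

theorem lin_apply (g : EuclideanSpace ℝ (Fin d) ≃ᵢ EuclideanSpace ℝ (Fin d))
    (x y : EuclideanSpace ℝ (Fin d)) (hg : g x = y) (v : EuclideanSpace ℝ (Fin d)) :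
    lin g x y hg v = g (x + v) - y := by
  change -y + g (x + v) = _
  abel

theorem lin_iso {g : EuclideanSpace ℝ (Fin d) ≃ᵢ EuclideanSpace ℝ (Fin d)}
    {x y : EuclideanSpace ℝ (Fin d)} (hg : g x = y) {ρ : ℝ}
    (hc : g '' cluster X x ρ = cluster X y ρ) : Iso X ρ x y (lin g x y hg) := by
  intro v hv
  rw [lin_apply]
  have e1 : y + (g (x + v) - y) = g (x + v) := by abel
  rw [e1]
  constructor
  · intro hx
    have h1 : x + v ∈ cluster X x ρ := ⟨hx, by rw [dist_eq_norm]; simpa using hv⟩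
    have h2 : g (x + v) ∈ cluster X y ρ := by rw [← hc]; exact ⟨_, h1, rfl⟩
    exact h2.1
  · intro hx
    have h2 : g (x + v) ∈ cluster X y ρ := by
      refine ⟨hx, ?_⟩
      rw [← hg, g.dist_eq, dist_eq_norm]
      simpa using hv
    rw [← hc] at h2
    obtain ⟨w, hw, hww⟩ := h2
    rw [g.injective.eq_iff] at hww
    rw [← hww]
    exact hw.1

end Pool.Agent.Helper65.Delone
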