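import Mathlib

/-! Definitions for the work on 2R-cluster symmetry groups of Delaunay sets. -/

namespace Pool.Agent.Helper65.Delone

open Module

variable {E : Type*} [NormedAddCommGroup E] [InnerProductSpace ℝ E]

/-- `C` is `D`-separated and every point of space is within `R` of a point of `C`. -/
structure SepDense (C : Set E) (D R : ℝ) : Prop where
  sep : ∀ x ∈ C, ∀ y ∈ C, x ≠ y → D ≤ ‖x - y‖
  dens : ∀ q : E, ∃ x ∈ C, ‖q - x‖ ≤ R

/-- The contact set of `q`: the points of `C` nearest to `q`. -/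
def Con (C : Set E) (q : E) : Set E := {x | x ∈ C ∧ ∀ z ∈ C, ‖q - x‖ ≤ ‖q - z‖}

/-- The linear isometry `A` carries the `L`-cluster of `X` at `x` onto the one at `y`
(in terms of difference vectors). -/
def Iso (X : Set E) (L : ℝ) (x y : E) (A : E ≃ₗᵢ[ℝ] E) : Prop :=
  ∀ v : E, ‖v‖ ≤ L → (x + v ∈ X ↔ y + A v ∈ X)

/-- The fixed space of a linear isometry. -/
def fixSpace (A : E ≃ₗᵢ[ℝ] E) : Submodule ℝ E where
  carrier := {v | A v = v}
  add_mem' := by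
    intro a b ha hb
    have ha' : A a = a := ha
    have hb' : A b = b := hb
    change A (a + b) = a + b
    rw [map_add, ha', hb']
  zero_mem' := by
    change A 0 = 0
    exact map_zero A
  smul_mem' := by
    intro c v hv
    have hv' : A v = v := hv
    change A (c • v) = c • v
    rw [map_smul, hv']

theorem mem_fixSpace {A : E ≃ₗᵢ[ℝ] E} {v : E} : v ∈ fixSpace A ↔ A v = v := Iff.rfl

/-- The small non-identity cluster symmetries at `x` whose fixed space has dimension at most two. -/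
def Small (X : Set E) (L : ℝ) (x : E) : Set (E ≃ₗᵢ[ℝ] E) :=
  {A | Iso X L x x A ∧ A ≠ 1 ∧ (∀ v : E, ‖A v - v‖ ≤ ‖v‖ / 80) ∧ finrank ℝ (fixSpace A) ≤ 2}

/-- The situation after the first part of the argument: `W` is the minimal length of a cluster
vector that is moved, `Q x` is the common fixed plane of the small symmetries at `x`. -/
structure Frame (X : Set E) (L W : ℝ) (S : E → Set (E ≃ₗᵢ[ℝ] E)) (Q : E → Submodule ℝ E) :
    Prop where
  W_pos : 0 < W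
  W_le : W ≤ L
  S_iso : ∀ x ∈ X, ∀ A ∈ S x, Iso X L x x A
  S_small : ∀ x ∈ X, ∀ A ∈ S x, ∀ v : E, ‖A v - v‖ ≤ ‖v‖ / 80
  S_fix : ∀ x ∈ X, ∀ A ∈ S x, ∀ v : E, A v = v ↔ v ∈ Q x
  S_ne : ∀ x ∈ X, (S x).Nonempty
  Q_rank : ∀ x ∈ X, finrank ℝ (Q x) = 2
  Q_lt : ∀ x ∈ X, Q x ≠ ⊤
  near : ∀ x ∈ X, ∀ z ∈ X, ‖z - x‖ < W → z - x ∈ Q x
  partner : ∀ x ∈ X, ∃ y ∈ X, ‖y - x‖ = W ∧ y - x ∉ Q x
  gens : ∀ x ∈ X, ∃ a b : E, x + a ∈ X ∧ x + b ∈ X ∧ ‖a‖ ≤ W / 80 ∧ ‖b‖ ≤ W / 80 ∧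
    Submodule.span ℝ {a, b} = Q x
  cong : ∀ x ∈ X, ∀ y ∈ X, ∃ B : E ≃ₗᵢ[ℝ] E, Iso X L x y B

end Pool.Agent.Helper65.Delone
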