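import Pool.Agent.Helper65.Delone.Defs

/-! Statements of the steps, as propositions about an inner product space `E`. -/

namespace Pool.Agent.Helper65.Delone

open Module
open scoped RealInnerProductSpace

section

variable (E : Type*) [NormedAddCommGroup E] [InnerProductSpace ℝ E]

/-- local finiteness -/
def FiniteNear : Prop :=
  ∀ (C : Set E) (D : ℝ), 0 < D → (∀ x ∈ C, ∀ y ∈ C, x ≠ y → D ≤ ‖x - y‖) →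
    ∀ (q : E) (t : ℝ), {x | x ∈ C ∧ ‖q - x‖ ≤ t}.Finite

/-- moving an empty ball until it meets a further point -/
def LemM : Prop :=
  ∀ (C : Set E) (D R : ℝ), 0 < D → SepDense C D R → ∀ (q x : E), x ∈ Con C q →
    ∀ v : E, v ≠ 0 →
    ∃ s : ℝ, 0 ≤ s ∧ x ∈ Con C (q + s • v) ∧ (∃ z ∈ Con C (q + s • v), 0 < ⟪z - x, v⟫) ∧
      ∀ y ∈ Con C q, ⟪y - x, v⟫ = 0 → y ∈ Con C (q + s • v)

/-- separation against covering radius -/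
def LemN : Prop :=
  ∀ (C : Set E) (D R : ℝ), 0 < D → SepDense C D R → 2 ≤ finrank ℝ E → D ^ 2 ≤ 3 * R ^ 2

/-- clusters span -/
def ExistsPos : Prop :=
  ∀ (C : Set E) (D R : ℝ), 0 < D → SepDense C D R → ∀ (x u : E), x ∈ C → u ≠ 0 →
    ∃ z ∈ C, ‖z - x‖ ≤ 2 * R ∧ 0 < ⟪z - x, u⟫

/-- fixed vectors are orthogonal to displacements -/
def FixOrth : Prop :=
  ∀ (A : E ≃ₗᵢ[ℝ] E) (v w : E), A w = w → ⟪A v - v, w⟫ = 0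

/-- two displacements are independent -/
def Indep : Prop :=
  ∀ (A : E ≃ₗᵢ[ℝ] E), (∀ v : E, ‖A v - v‖ ≤ ‖v‖ / 80) → ∀ v : E, A v ≠ v →
    LinearIndependent ℝ ![A v - v, A.symm v - v]

/-- the frame exists -/
def ExistsFrame : Prop :=
  ∀ (X : Set E) (D R : ℝ), 0 < D → SepDense X D R →
    (∀ x ∈ X, ∀ y ∈ X, ∃ B : E ≃ₗᵢ[ℝ] E, Iso X (2 * R) x y B) →
    ∀ x₀ ∈ X, (Small X (2 * R) x₀).Nonempty →
    ∃ (W : ℝ) (Q : E → Submodule ℝ E), Frame X (2 * R) W (Small X (2 * R)) Q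

/-- cluster isomorphisms carry `Q` to `Q` -/
def Transport : Prop :=
  ∀ (X : Set E) (L W : ℝ) (S : E → Set (E ≃ₗᵢ[ℝ] E)) (Q : E → Submodule ℝ E),
    Frame X L W S Q → ∀ x ∈ X, ∀ x' ∈ X, ∀ B : E ≃ₗᵢ[ℝ] E, Iso X L x x' B →
    ∀ z ∈ X, ‖z - x‖ ≤ L - W / 80 →
    x' + B (z - x) ∈ X ∧ ∀ v : E, v ∈ Q z ↔ B v ∈ Q (x' + B (z - x))

/-- near points: orthogonality and splitting -/
def StepI : Prop :=
  ∀ (X : Set E) (L W : ℝ) (S : E → Set (E ≃ₗᵢ[ℝ] E)) (Q : E → Submodule ℝ E),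
    Frame X L W S Q → ∀ x ∈ X, ∀ z ∈ X, ‖z - x‖ ≤ L → ‖z - x‖ < 40 * W → z - x ∉ Q x →
    (∀ u ∈ Q x, ∀ w ∈ Q z, ⟪u, w⟫ = 0) ∧
    ∃ h ∈ Q x, ∃ p ∈ Q z, z - x = h + p ∧ p ≠ 0 ∧ ∀ A ∈ S x,
      (∀ w ∈ Q z, A w ∈ Q z) ∧ Submodule.span ℝ {A p - p, A.symm p - p} = Q z

/-- third points near a good pair -/
def LemC : Prop :=
  ∀ (X : Set E) (L W : ℝ) (S : E → Set (E ≃ₗᵢ[ℝ] E)) (Q : E → Submodule ℝ E),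
    Frame X L W S Q → ∀ x ∈ X, ∀ y ∈ X, ∀ z ∈ X, ∀ c : E,
    (∀ u ∈ Q x, ∀ w ∈ Q y, ⟪u, w⟫ = 0) → c - x ∈ Q x → c - y ∈ Q y →
    c ≠ x → c ≠ y → z ≠ c →
    ‖y - x‖ ≤ L → ‖y - x‖ < 40 * W → ‖z - x‖ ≤ L → ‖z - x‖ < 40 * W →
    ‖z - y‖ ≤ L → ‖z - y‖ < 40 * W →
    z - c ∈ Q z ∧ ((z - c ∈ Q x ∧ Q z = Q x) ∨ (z - c ∈ Q y ∧ Q z = Q y) ∨
      ((∀ u ∈ Q x, ∀ w ∈ Q z, ⟪u, w⟫ = 0) ∧ (∀ u ∈ Q y, ∀ w ∈ Q z, ⟪u, w⟫ = 0)))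

/-- cluster symmetries have finite order -/
def FiniteOrder : Prop :=
  ∀ (X : Set E) (D R : ℝ), 0 < D → SepDense X D R → ∀ x ∈ X,
    ∀ A : E ≃ₗᵢ[ℝ] E, Iso X (2 * R) x x A → ∃ N : ℕ, 0 < N ∧ A ^ N = 1

/-- averaging over the powers of a symmetry that fixes exactly `Q` -/
def Average : Prop :=
  ∀ (A : E ≃ₗᵢ[ℝ] E) (N : ℕ) (P : Submodule ℝ E), 0 < N → A ^ N = 1 →
    (∀ v : E, A v = v ↔ v ∈ P) → ∀ a m : E, (∀ v ∈ P, ⟪v, a⟫ = 0) →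
    (∀ k : ℕ, ⟪m, (A ^ k) a⟫ ≤ ⟪m, a⟫) → 0 ≤ ⟪m, a⟫

/-- Case I, first configuration -/
def CaseInit : Prop :=
  ∀ (X : Set E) (D R W : ℝ) (S : E → Set (E ≃ₗᵢ[ℝ] E)) (Q : E → Submodule ℝ E),
    0 < D → SepDense X D R → Frame X (2 * R) W S Q → 2 * R < 40 * W → X.Nonempty →
    ∃ q c : E, ∃ x ∈ Con X q, ∃ y ∈ Con X q, (∀ u ∈ Q x, ∀ w ∈ Q y, ⟪u, w⟫ = 0) ∧
      c - x ∈ Q x ∧ c - y ∈ Q y ∧ c ≠ x ∧ c ≠ y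

/-- Case I is impossible -/
def CaseI : Prop :=
  ∀ (X : Set E) (D R W : ℝ) (S : E → Set (E ≃ₗᵢ[ℝ] E)) (Q : E → Submodule ℝ E),
    0 < D → SepDense X D R → Frame X (2 * R) W S Q → 2 * R < 40 * W → X.Nonempty → False

/-- Case II, the centres -/
def Centers : Prop :=
  ∀ (X : Set E) (L W : ℝ) (S : E → Set (E ≃ₗᵢ[ℝ] E)) (Q : E → Submodule ℝ E),
    Frame X L W S Q → 40 * W ≤ L →
    ∃ c : E → E, (∀ x ∈ X, c x - x ∈ Q x) ∧ (∀ x ∈ X, ‖c x - x‖ ^ 2 = W ^ 2 / 2) ∧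
      (∀ x ∈ X, ∃ y ∈ X, ‖y - x‖ = W ∧ c y = c x ∧ (∀ u ∈ Q x, ∀ w ∈ Q y, ⟪u, w⟫ = 0)) ∧
      (∀ x ∈ X, ∀ x' ∈ X, ∀ B : E ≃ₗᵢ[ℝ] E, Iso X L x x' B → ∀ z ∈ X, ‖z - x‖ ≤ L - W →
        c (x' + B (z - x)) = x' + B (c z - x))

/-- Case II is impossible -/
def CaseII : Prop :=
  ∀ (X : Set E) (D R W : ℝ) (S : E → Set (E ≃ₗᵢ[ℝ] E)) (Q : E → Submodule ℝ E),
    0 < D → SepDense X D R → Frame X (2 * R) W S Q → 40 * W ≤ 2 * R → X.Nonempty → False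

/-- small non-identity isometries have fixed space of codimension at least two -/
def SmallCodim : Prop :=
  ∀ (A : E ≃ₗᵢ[ℝ] E), (∀ v : E, ‖A v - v‖ ≤ ‖v‖ / 80) → A ≠ 1 →
    finrank ℝ (fixSpace A) + 2 ≤ finrank ℝ E

end

/-- packing in the unit ball of a normed space -/
def Packing (V : Type*) [NormedAddCommGroup V] [NormedSpace ℝ V] : Prop :=
  ∀ s : Finset V, (∀ c ∈ s, ‖c‖ ≤ 1) → (∀ c ∈ s, ∀ d ∈ s, c ≠ d → 1 / 80 ≤ ‖c - d‖) →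
    s.card ≤ 161 ^ finrank ℝ V

end Pool.Agent.Helper65.Delone
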