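import Pool.Agent.Helper65.Delone.B

namespace Pool.Agent.Helper65.Delone

open Module
open scoped RealInnerProductSpace

variable {E : Type*} [NormedAddCommGroup E] [InnerProductSpace ℝ E]

theorem caseInit [FiniteDimensional ℝ E] (hM : LemM E) (hI : StepI E) : CaseInit E := by
  intro X D R W S Q hD h F hW ⟨x, hx⟩
  have hpair : ∀ q : E, ∀ a ∈ Con X q, ∀ b ∈ Con X q, b - a ∉ Q a →
      (∀ u ∈ Q a, ∀ w ∈ Q b, ⟪u, w⟫ = 0) ∧ ∃ h ∈ Q a, ∃ p ∈ Q b, b - a = h + p ∧ p ≠ 0 := by
    intro q a ha b hb hnot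
    have h1 : ‖b - a‖ ≤ 2 * R := con_dist_le h hb ha
    obtain ⟨h2, h', hh', p, hp, he, hp0, -⟩ :=
      hI X (2 * R) W S Q F a ha.1 b hb.1 h1 (by linarith) hnot
    exact ⟨h2, h', hh', p, hp, he, hp0⟩
  -- direction orthogonal to `Q x`
  obtain ⟨u, hu, hu0⟩ : ∃ u ∈ (Q x)ᗮ, u ≠ 0 := by
    apply (Submodule.ne_bot_iff _).1
    intro hbot
    exact F.Q_lt x hx ((Submodule.orthogonal_eq_bot_iff).1 hbot)
  obtain ⟨s, -, hxc, ⟨z, hz, hzp⟩, -⟩ := hM X D R hD h x x (con_self hx) u hu0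
  have hzx : z - x ∉ Q x := by
    intro hmem
    have := hu _ hmem
    linarith
  obtain ⟨hxz, h1, hh1, p, hp, he, hp0⟩ := hpair _ x hxc z hz hzx
  by_cases h10 : h1 = 0
  swap
  · refine ⟨_, x + h1, x, hxc, z, hz, hxz, ?_, ?_, ?_, ?_⟩
    · simpa using hh1
    · have e : x + h1 - z = -p := by
        have : z = x + (h1 + p) := by rw [← he]; abel
        rw [this]; abel
      rw [e]; exact (Q z).neg_mem hp
    · simpa using h10
    · intro e
      apply hp0
      have : z - x = h1 := by rw [← e]; abel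
      rw [this] at he
      exact (left_eq_add.1 he)
  rw [h10, zero_add] at he
  -- second move
  obtain ⟨v, hv, hv0⟩ : ∃ v ∈ Q x, v ≠ 0 := by
    apply (Submodule.ne_bot_iff _).1
    intro hbot
    have := F.Q_rank x hx
    rw [hbot, finrank_bot] at this
    omega
  have hzv : ⟪z - x, v⟫ = 0 := by
    rw [he, real_inner_comm]
    exact hxz v hv p hp
  obtain ⟨t, -, hxc', ⟨y, hy, hyp⟩, hkeep⟩ := hM X D R hD h _ x hxc v hv0
  have hzc' := hkeep z hz hzv
  have hyzv : ⟪y - z, v⟫ = ⟪y - x, v⟫ := by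
    have e : y - z = (y - x) - (z - x) := by abel
    rw [e, inner_sub_left, hzv, sub_zero]
  have hyz : y - z ∉ Q z := by
    intro hmem
    have h2 := hxz v hv _ hmem
    rw [real_inner_comm, hyzv] at h2
    linarith
  obtain ⟨hzy, h2, hh2, p', hp', he', hp'0⟩ := hpair _ z hzc' y hy hyz
  by_cases h20 : h2 = 0
  swap
  · refine ⟨_, z + h2, z, hzc', y, hy, hzy, ?_, ?_, ?_, ?_⟩
    · simpa using hh2
    · have e : z + h2 - y = -p' := by
        have : y = z + (h2 + p') := by rw [← he']; abel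
        rw [this]; abel
      rw [e]; exact (Q y).neg_mem hp'
    · simpa using h20
    · intro e
      apply hp'0
      have : y - z = h2 := by rw [← e]; abel
      rw [this] at he'
      exact (left_eq_add.1 he')
  rw [h20, zero_add] at he'
  exfalso
  have hyx : y - x ∉ Q x := by
    intro hmem
    have a1 : ⟪y - x, z - x⟫ = 0 := by rw [he]; exact hxz _ hmem _ hp
    have a2 : ⟪z - x, y - z⟫ = 0 := by rw [he, he']; exact hzy _ hp _ hp'
    have e : z - x = (y - x) - (y - z) := by abel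
    have a3 : ⟪z - x, z - x⟫ = 0 := by
      nth_rewrite 1 [e]
      rw [inner_sub_left, a1, real_inner_comm, a2, sub_zero]
    rw [inner_self_eq_zero, he] at a3
    exact hp0 a3
  obtain ⟨hxy, -⟩ := hpair _ x hxc' y hy hyx
  have b1 : ⟪y - z, v⟫ = 0 := by
    rw [he', real_inner_comm]
    exact hxy v hv p' hp'
  rw [hyzv] at b1
  linarith

end Pool.Agent.Helper65.Delone
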