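import Pool.Agent.Helper65.Delone.Goals

namespace Pool.Agent.Helper65.Delone

open Module MeasureTheory Metric Set
open scoped ENNReal NNReal

open scoped Function in -- required for scoped `on`
theorem packing {V : Type*} [NormedAddCommGroup V] [NormedSpace ℝ V] [FiniteDimensional ℝ V] :
    Packing V := by
  intro s hs h
  borelize V
  let μ : Measure V := Measure.addHaar
  let δ : ℝ := (1 : ℝ) / 160
  let ρ : ℝ := (161 : ℝ) / 160
  have ρpos : 0 < ρ := by norm_num [ρ]
  set A := ⋃ c ∈ s, ball (c : V) δ with hA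
  have D : Set.Pairwise (s : Set V) (Disjoint on fun c => ball (c : V) δ) := by
    rintro c hc d hd hcd
    apply ball_disjoint_ball
    rw [dist_eq_norm]
    have := h c hc d hd hcd
    norm_num [δ] at this ⊢
    linarith
  have A_subset : A ⊆ ball (0 : V) ρ := by
    refine iUnion₂_subset fun x hx => ?_
    apply ball_subset_ball'
    calc
      δ + dist x 0 ≤ δ + 1 := by rw [dist_zero_right]; exact add_le_add le_rfl (hs x hx)
      _ = 161 / 160 := by norm_num [δ]
  have I :
    (s.card : ℝ≥0∞) * ENNReal.ofReal (δ ^ finrank ℝ V) * μ (ball 0 1) ≤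
      ENNReal.ofReal (ρ ^ finrank ℝ V) * μ (ball 0 1) :=
    calc
      (s.card : ℝ≥0∞) * ENNReal.ofReal (δ ^ finrank ℝ V) * μ (ball 0 1) = μ A := by
        rw [hA, measure_biUnion_finset D fun c _ => measurableSet_ball]
        have I : 0 < δ := by norm_num [δ]
        simp only [μ.addHaar_ball_of_pos _ I]
        simp only [Finset.sum_const, nsmul_eq_mul, mul_assoc]
      _ ≤ μ (ball (0 : V) ρ) := measure_mono A_subset
      _ = ENNReal.ofReal (ρ ^ finrank ℝ V) * μ (ball 0 1) := by
        simp only [μ.addHaar_ball_of_pos _ ρpos]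
  have J : (s.card : ℝ≥0∞) * ENNReal.ofReal (δ ^ finrank ℝ V) ≤
      ENNReal.ofReal (ρ ^ finrank ℝ V) :=
    (ENNReal.mul_le_mul_iff_left (measure_ball_pos _ _ zero_lt_one).ne'
      measure_ball_lt_top.ne).1 I
  have K : (s.card : ℝ) ≤ (161 : ℝ) ^ finrank ℝ V := by
    have h1 := ENNReal.toReal_le_of_le_ofReal (pow_nonneg ρpos.le _) J
    rw [ENNReal.toReal_mul, ENNReal.toReal_natCast, ENNReal.toReal_ofReal (by positivity)] at h1
    have h2 : ρ ^ finrank ℝ V = 161 ^ finrank ℝ V * δ ^ finrank ℝ V := by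
      rw [← mul_pow]; congr 1; norm_num [ρ, δ]
    rw [h2] at h1
    exact le_of_mul_le_mul_right h1 (by positivity)
  exact mod_cast K

end Pool.Agent.Helper65.Delone
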