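import Pool.Agent.Helper65.Delone.A
import Pool.Agent.Helper65.Delone.C
import Pool.Agent.Helper65.Delone.H
import Pool.Agent.Helper65.Delone.I
import Pool.Agent.Helper65.Delone.P
import Pool.Agent.Helper65.Delone.Small
import Pool.Agent.Helper35.Delone.F
import Pool.Agent.Helper45.Delone.FrameEx
import Pool.Agent.Helper68.Delone.Centers
import Pool.Agent.Helper74.Del.LemC
import Pool.Agent.Helper77.Delone.CaseI
import Pool.Agent.Helper80.Delone.CaseII

/-! All steps together. -/

namespace Pool.Agent.Helper65.Delone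

open Module

section

variable {E : Type*} [NormedAddCommGroup E] [InnerProductSpace ℝ E] [FiniteDimensional ℝ E]

theorem existsFrame : ExistsFrame E :=
  Pool.Agent.Helper45.Delone.existsFrame finiteNear (existsPos lemM) indep

theorem stepI : StepI E := Pool.Agent.Helper35.Delone.stepI indep fixOrth

theorem lemC : LemC E := Pool.Agent.Helper74.Del.lemC stepI

theorem caseI : CaseI E :=
  Pool.Agent.Helper77.Delone.caseI finiteNear lemM lemC (finiteOrder finiteNear (existsPos lemM))
    average (caseInit lemM stepI)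

theorem caseII : CaseII E :=
  Pool.Agent.Helper80.Delone.caseII finiteNear (lemN lemM)
    (Pool.Agent.Helper68.Delone.centers Pool.Agent.Helper35.Delone.transport stepI lemC)

end

variable {d : ℕ} {X : Set (EuclideanSpace ℝ (Fin d))} {r R : ℝ}

theorem three_le (h : IsDelaunay X r R) (hc : MutuallyCongruent X (2 * R))
    {x : EuclideanSpace ℝ (Fin d)} (hx : x ∈ X)
    {g : EuclideanSpace ℝ (Fin d) ≃ᵢ EuclideanSpace ℝ (Fin d)}
    (hg : g ∈ clusterGroup X x (2 * R)) (h1 : g ≠ 1) (hs : ∀ y, dist (g y) y ≤ dist y x / 80) :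
    3 ≤ finrank ℝ (fixSpace (lin g x x hg.1)) :=
  three_le_of_small existsFrame caseI caseII (D := 2 * r) (by linarith [h.r_pos]) h.sepDense
    hc.iso hx (lin_iso hg.1 hg.2) (fun h2 => h1 (lin_one hg.1 h2)) (lin_small hg.1 hs)

end Pool.Agent.Helper65.Delone
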